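import Pool.Agent.Work.MP_9ecf5f_nt.AE.All
import Pool.Agent.Work.MP_a8fbd7_nt.OX.FIN.Diag

/-!
# MP_a8fbd7_nt, block OU: uniform distribution of the primes in the Oppermann intervals

Outside a set of integers with at most `N^(39/200)` elements up to `N` every subinterval of
`[n^2 - n, n^2 + n]` contains the expected number of primes.  Author: helper76.
-/

set_option autoImplicit false

open MeasureTheory Set

noncomputable section

namespace Pool.Agent.Work.MP_a8fbd7_nt.OU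

open Pool.Agent.Work.MP_a8fbd7_nt.OX (r1)
open Pool.Agent.Work.MP_9ecf5f_nt.AE

theorem all_S : StS := prf_S (prf_W all_Mn OX.ASM.iWt) prf_V prf_L prf_B prf_M

/-- number of primes in `[a, b]` -/
def ct (a b : ℕ) : ℝ := (((Finset.Icc a b).filter Nat.Prime).card : ℝ)

/-- some subinterval of `[n^2 - n, n^2 + n]` has a deviation of more than `δ n / log n` -/
def Dev (δ : ℝ) (n : ℕ) : Prop := ∃ a b : ℕ, n ^ 2 - n ≤ a ∧ a ≤ b ∧ b ≤ n ^ 2 + n ∧
  δ * ((n : ℝ) / Real.log n) < |ct a b - ((b : ℝ) - a) / (2 * Real.log n)|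

theorem Dev_mono (δ δ' : ℝ) (h : δ ≤ δ') (n : ℕ) (hn : Dev δ' n) : Dev δ n := by
  obtain ⟨a, b, h1, h2, h3, h4⟩ := hn
  refine ⟨a, b, h1, h2, h3, lt_of_le_of_lt ?_ h4⟩
  have : 0 ≤ (n : ℝ) / Real.log n := div_nonneg (Nat.cast_nonneg n) (Real.log_natCast_nonneg n)
  gcongr

theorem log_bds (N x : ℝ) (hN : 100 ≤ N) (h1 : N ^ 2 - 2 * N ≤ x) (h2 : x ≤ N ^ 2 + N) :
    2 * Real.log N - 4 / N ≤ Real.log x ∧ Real.log x ≤ 2 * Real.log N + 1 / N := by
  have hN0 : 0 < N := by linarith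
  have hx : 0 < N ^ 2 - 2 * N := by nlinarith
  have hx0 : 0 < x := by linarith
  have e1 : Real.log (N ^ 2) = 2 * Real.log N := by
    rw [Real.log_pow]
    norm_num
  constructor
  · have h3 : Real.log (N ^ 2 * (1 - 2 / N)) ≤ Real.log x := by
      refine Real.log_le_log ?_ ?_
      · have : 0 < 1 - 2 / N := by
          rw [sub_pos, div_lt_one hN0]
          linarith
        positivity
      · have : N ^ 2 * (1 - 2 / N) = N ^ 2 - 2 * N := by field_simp
        linarith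
    have hpos : 0 < 1 - 2 / N := by
      rw [sub_pos, div_lt_one hN0]
      linarith
    rw [Real.log_mul (by positivity) hpos.ne', e1] at h3
    have h4 := Real.one_sub_inv_le_log_of_pos hpos
    have h5 : -(4 / N) ≤ 1 - (1 - 2 / N)⁻¹ := by
      have h6 : (1 - 2 / N)⁻¹ = N / (N - 2) := by
        have : (1 - 2 / N) = (N - 2) / N := by field_simp
        rw [this, inv_div]
      rw [h6]
      have hN2 : 0 < N - 2 := by linarith
      have h7 : N / (N - 2) ≤ 1 + 4 / N := by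
        rw [div_le_iff₀ hN2]
        have h8 : (1 + 4 / N) * (N - 2) = N + 2 - 8 / N := by
          field_simp
          ring
        rw [h8]
        have h9 : 8 / N ≤ 2 := by
          rw [div_le_iff₀ hN0]
          linarith
        linarith
      linarith
    linarith
  · have h3 : Real.log x ≤ Real.log (N ^ 2 * (1 + 1 / N)) := by
      refine Real.log_le_log hx0 ?_
      have : N ^ 2 * (1 + 1 / N) = N ^ 2 + N := by field_simp
      linarith
    rw [Real.log_mul (by positivity) (by positivity), e1] at h3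
    have h4 := Real.log_le_sub_one_of_pos (show 0 < 1 + 1 / N by positivity)
    linarith

theorem div_log (N x y : ℝ) (hN : 100 ≤ N) (h1 : N ^ 2 - 2 * N ≤ x) (h2 : x ≤ N ^ 2 + N)
    (hy0 : 0 ≤ y) (hy : y ≤ 4 * N) :
    |y / Real.log x - y / (2 * Real.log N)| ≤ 8 / Real.log N ∧ y / Real.log x ≤
      4 * (N / Real.log N) := by
  obtain ⟨hl, hu⟩ := log_bds N x hN h1 h2
  have hN0 : 0 < N := by linarith
  have hL : 1 ≤ Real.log N := by
    rw [Real.le_log_iff_exp_le hN0]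
    have := Real.exp_one_lt_d9
    linarith
  set L := Real.log N with hLdef
  have h4N : 4 / N ≤ 1 := by
    rw [div_le_one hN0]
    linarith
  have h1N : 1 / N ≤ 4 / N := by gcongr; norm_num
  have hLx : L ≤ Real.log x := by linarith
  have hx0 : 0 < Real.log x := by linarith
  constructor
  · have e1 : y / Real.log x - y / (2 * L) = y * (2 * L - Real.log x) / (Real.log x * (2 * L)) := by
      field_simp
    rw [e1, abs_div, abs_mul, abs_of_nonneg hy0, abs_of_pos (show 0 < Real.log x * (2 * L) by positivity)]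
    have h3 : |2 * L - Real.log x| ≤ 4 / N := by
      rw [abs_le]
      constructor <;> linarith
    rw [div_le_div_iff₀ (by positivity) (by positivity)]
    have h4 : y * |2 * L - Real.log x| ≤ 16 := by
      calc y * |2 * L - Real.log x| ≤ (4 * N) * (4 / N) := by gcongr
        _ = 16 := by field_simp; norm_num
    have h5 : L ≤ Real.log x * L := by nlinarith
    calc y * |2 * L - Real.log x| * L ≤ 16 * L := by gcongr
      _ ≤ 8 * (Real.log x * (2 * L)) := by nlinarith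
  · calc y / Real.log x ≤ (4 * N) / L := by gcongr
      _ = 4 * (N / L) := by ring

/-- a bad subinterval gives an interval of bad points -/
theorem local_bad (δ : ℝ) (hδ : 0 < δ) (hδ1 : δ ≤ 1) (n : ℕ) (hn : 100 / δ ≤ (n : ℝ))
    (h : Dev δ n) : ∃ z : ℝ, (n : ℝ) ^ 2 - n - 1 - δ / 8 * n ≤ z ∧ z + δ / 8 * n ≤ (n : ℝ) ^ 2 + n ∧
      ∀ x ∈ Icc z (z + δ / 8 * n), Exc (δ / 16) (δ / 8) x := by
  obtain ⟨a, b, ha, hab, hb, hdev⟩ := h
  set N : ℝ := (n : ℝ) with hNdef
  have hN' : 100 ≤ N * δ := by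
    rwa [div_le_iff₀ hδ] at hn
  have hN : 100 ≤ N := by nlinarith [Nat.cast_nonneg (α := ℝ) n]
  have hN0 : 0 < N := by linarith
  have hn1 : 1 ≤ n := by
    have : (0 : ℝ) < n := hN0
    exact_mod_cast this
  have haR : N ^ 2 - N ≤ (a : ℝ) := by
    have h1 : n ^ 2 ≤ a + n := by omega
    have h2 : ((n ^ 2 : ℕ) : ℝ) ≤ ((a + n : ℕ) : ℝ) := by exact_mod_cast h1
    push_cast at h2
    linarith
  have hbR : (b : ℝ) ≤ N ^ 2 + N := by
    have h2 : ((b : ℕ) : ℝ) ≤ ((n ^ 2 + n : ℕ) : ℝ) := by exact_mod_cast hb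
    push_cast at h2
    exact h2
  have habR : (a : ℝ) ≤ b := by exact_mod_cast hab
  have ha2 : 2 ≤ a := by
    have h3 : (2 : ℝ) ≤ a := by nlinarith
    exact_mod_cast h3
  have hL : 1 ≤ Real.log N := by
    rw [Real.le_log_iff_exp_le hN0]
    have := Real.exp_one_lt_d9
    linarith
  have hL0 : 0 < Real.log N := by linarith
  have hsq : ∀ x : ℝ, 0 ≤ x → x ≤ N ^ 2 + N → δ / 16 * Real.sqrt x ≤ δ / 8 * N := by
    intro x hx0 hx
    have h3 : Real.sqrt x ≤ 2 * N := by
      rw [Real.sqrt_le_left (by positivity)]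
      nlinarith
    calc δ / 16 * Real.sqrt x ≤ δ / 16 * (2 * N) := by gcongr
      _ = δ / 8 * N := by ring
  rcases lt_abs.1 hdev with hmany | hfew
  · -- too many primes
    refine ⟨(a : ℝ) - 1 - δ / 8 * N, by linarith, by linarith, ?_⟩
    rintro x ⟨hx1, hx2⟩
    have hx2' : x ≤ (a : ℝ) - 1 := by linarith
    have hxlo : N ^ 2 - 2 * N ≤ x := by nlinarith
    have hxhi : x ≤ N ^ 2 + N := by linarith
    have hx0 : 0 ≤ x := by nlinarith
    have hy0 : 0 ≤ (b : ℝ) - x + δ / 8 * N := by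
      have : 0 < δ / 8 * N := by positivity
      linarith
    have hy4 : (b : ℝ) - x + δ / 8 * N ≤ 4 * N := by nlinarith
    obtain ⟨hd1, hd2⟩ := div_log N x ((b : ℝ) - x + δ / 8 * N) hN hxlo hxhi hy0 hy4
    refine ⟨(b : ℝ) - x + δ / 8 * N, ?_, ?_, ?_⟩
    · refine (hsq x hx0 hxhi).trans ?_
      linarith
    · nlinarith
    · have hpc : ct a b ≤ pc x (x + ((b : ℝ) - x + δ / 8 * N)) := by
        unfold ct pc
        have hsub : (Finset.Icc a b).filter Nat.Prime ⊆
            (Finset.Ioc ⌊x⌋₊ ⌊x + ((b : ℝ) - x + δ / 8 * N)⌋₊).filter Nat.Prime := by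
          refine Finset.filter_subset_filter _ ?_
          intro p hp
          rw [Finset.mem_Icc] at hp
          rw [Finset.mem_Ioc]
          constructor
          · rw [Nat.floor_lt hx0]
            have : (a : ℝ) ≤ p := by exact_mod_cast hp.1
            linarith
          · refine Nat.le_floor ?_
            have h5 : (p : ℝ) ≤ b := by exact_mod_cast hp.2
            have h6 : 0 < δ / 8 * N := by positivity
            linarith
        exact_mod_cast Finset.card_le_card hsub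
      have hd3 := (abs_le.1 hd1).2
      have hyu : (b : ℝ) - x + δ / 8 * N ≤ (b : ℝ) - a + (1 + δ / 4 * N) := by linarith
      have e1 : ((b : ℝ) - x + δ / 8 * N) / (2 * Real.log N) ≤
          ((b : ℝ) - a) / (2 * Real.log N) + (1 + δ / 4 * N) / (2 * Real.log N) := by
        rw [← add_div]
        gcongr
      have e2 : δ / 8 * (((b : ℝ) - x + δ / 8 * N) / Real.log x) ≤ δ / 8 * (4 * (N / Real.log N)) := by
        gcongr
      refine lt_of_le_of_lt e2 (lt_of_lt_of_le ?_ (le_abs_self _))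
      have e3 : (1 + δ / 4 * N) / (2 * Real.log N) = (1 / 2 + δ / 8 * N) * (1 / Real.log N) := by
        field_simp
        ring
      have e4 : N / Real.log N = N * (1 / Real.log N) := by ring
      have e5 : 8 / Real.log N = 8 * (1 / Real.log N) := by ring
      have hi : 0 < 1 / Real.log N := by positivity
      rw [e4] at hmany ⊢
      rw [e5] at hd3
      rw [e3] at e1
      have key : (δ / 8 * (4 * N) + (1 / 2 + δ / 8 * N) + 8) * (1 / Real.log N) <
          δ * N * (1 / Real.log N) := by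
        refine mul_lt_mul_of_pos_right ?_ hi
        nlinarith
      nlinarith
  · -- too few primes
    have hct : 0 ≤ ct a b := by
      unfold ct
      positivity
    have hlong : 2 * δ * N < (b : ℝ) - a := by
      have h5 : δ * (N / Real.log N) < ((b : ℝ) - a) / (2 * Real.log N) := by linarith
      rw [lt_div_iff₀ (by positivity)] at h5
      have h6 : δ * (N / Real.log N) * (2 * Real.log N) = 2 * δ * N := by
        field_simp
      linarith
    have hδN : 0 < δ * N := by positivity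
    refine ⟨(a : ℝ) - 1, by nlinarith, by nlinarith, ?_⟩
    rintro x ⟨hx1, hx2⟩
    have hxlo : N ^ 2 - 2 * N ≤ x := by nlinarith
    have hxhi : x ≤ N ^ 2 + N := by nlinarith
    have hx0 : 0 ≤ x := by nlinarith
    have hy0 : 0 ≤ (b : ℝ) - x := by nlinarith
    have hy4 : (b : ℝ) - x ≤ 4 * N := by nlinarith
    obtain ⟨hd1, hd2⟩ := div_log N x ((b : ℝ) - x) hN hxlo hxhi hy0 hy4
    refine ⟨(b : ℝ) - x, ?_, ?_, ?_⟩
    · refine (hsq x hx0 hxhi).trans ?_
      nlinarith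
    · nlinarith
    · have hpc : pc x (x + ((b : ℝ) - x)) ≤ ct a b := by
        unfold ct pc
        have hsub : (Finset.Ioc ⌊x⌋₊ ⌊x + ((b : ℝ) - x)⌋₊).filter Nat.Prime ⊆
            (Finset.Icc a b).filter Nat.Prime := by
          refine Finset.filter_subset_filter _ ?_
          intro p hp
          rw [Finset.mem_Ioc] at hp
          rw [Finset.mem_Icc]
          constructor
          · have h5 : a - 1 ≤ ⌊x⌋₊ := by
              refine Nat.le_floor ?_
              rw [Nat.cast_sub (by omega)]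
              push_cast
              linarith
            omega
          · have h5 : ⌊x + ((b : ℝ) - x)⌋₊ = b := by
              rw [add_sub_cancel, Nat.floor_natCast]
            omega
        exact_mod_cast Finset.card_le_card hsub
      have hd3 := (abs_le.1 hd1).1
      have hyl : (b : ℝ) - a - δ / 8 * N ≤ (b : ℝ) - x := by linarith
      have e1 : ((b : ℝ) - a) / (2 * Real.log N) - (δ / 8 * N) / (2 * Real.log N) ≤
          ((b : ℝ) - x) / (2 * Real.log N) := by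
        rw [← sub_div]
        gcongr
      have e2 : δ / 8 * (((b : ℝ) - x) / Real.log x) ≤ δ / 8 * (4 * (N / Real.log N)) := by
        gcongr
      refine lt_of_le_of_lt e2 (lt_of_lt_of_le ?_ (neg_le_abs _))
      have e3 : (δ / 8 * N) / (2 * Real.log N) = (δ / 16 * N) * (1 / Real.log N) := by
        field_simp
        norm_num
      have e4 : N / Real.log N = N * (1 / Real.log N) := by ring
      have e5 : 8 / Real.log N = 8 * (1 / Real.log N) := by ring
      have hi : 0 < 1 / Real.log N := by positivity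
      rw [e4] at hfew ⊢
      rw [e5] at hd3
      rw [e3] at e1
      have key : (δ / 8 * (4 * N) + δ / 16 * N + 8) * (1 / Real.log N) <
          δ * N * (1 / Real.log N) := by
        refine mul_lt_mul_of_pos_right ?_ hi
        nlinarith
      nlinarith


open Classical in
/-- the bad integers of one parity in `[7N/8, N]` -/
theorem parity_count (δ : ℝ) (hδ : 0 < δ) (hδ1 : δ ≤ 1) : ∃ C : ℝ, 0 < C ∧ ∃ N0 : ℕ, 1 ≤ N0 ∧
    ∀ N : ℕ, N0 ≤ N → ∀ r : ℕ,
    ((((Finset.Icc 1 N).filter (fun n : ℕ => 7 * N ≤ 8 * n ∧ n % 2 = r ∧ Dev δ n)).card : ℕ) : ℝ) ≤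
      C * (N : ℝ) ^ r1 := by
  obtain ⟨C, hC1, hC⟩ := all_S (δ / 16) (δ / 8) (by positivity) (by positivity)
  obtain ⟨N1, hN1⟩ := exists_nat_ge (2 * C + 200 / δ + 100)
  have hC0 : 0 < C := by linarith
  refine ⟨C * (64 / (7 * δ)), by positivity, max N1 1, le_max_right _ _, ?_⟩
  intro N hN r
  have hNR : 2 * C + 200 / δ + 100 ≤ (N : ℝ) := by
    refine hN1.trans ?_
    exact_mod_cast (le_max_left N1 1).trans hN
  have h200 : 0 < 200 / δ := by positivity
  have hN100 : 100 ≤ (N : ℝ) := by linarith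
  have hN0 : (0 : ℝ) < N := by linarith
  set S := (Finset.Icc 1 N).filter (fun n : ℕ => 7 * N ≤ 8 * n ∧ n % 2 = r ∧ Dev δ n) with hS
  have hmem : ∀ n ∈ S, n ≤ N ∧ 7 * N ≤ 8 * n ∧ n % 2 = r ∧ Dev δ n := by
    intro n hn
    rw [hS, Finset.mem_filter, Finset.mem_Icc] at hn
    exact ⟨hn.1.2, hn.2.1, hn.2.2.1, hn.2.2.2⟩
  have hlo : ∀ n ∈ S, 7 / 8 * (N : ℝ) ≤ n := by
    intro n hn
    have h1 : ((7 * N : ℕ) : ℝ) ≤ ((8 * n : ℕ) : ℝ) := by exact_mod_cast (hmem n hn).2.1
    push_cast at h1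
    linarith
  have hbig : ∀ n ∈ S, 100 / δ ≤ (n : ℝ) := by
    intro n hn
    have h1 := hlo n hn
    have h2 : 100 / δ = 200 / δ / 2 := by ring
    rw [h2]
    nlinarith
  have hz : ∀ n : ℕ, ∃ z : ℝ, n ∈ S → ((n : ℝ) ^ 2 - n - 1 - δ / 8 * n ≤ z ∧
      z + δ / 8 * n ≤ (n : ℝ) ^ 2 + n ∧ ∀ x ∈ Icc z (z + δ / 8 * n), Exc (δ / 16) (δ / 8) x) := by
    intro n
    by_cases hn : n ∈ S
    · obtain ⟨z, hz⟩ := local_bad δ hδ hδ1 n (hbig n hn) (hmem n hn).2.2.2
      exact ⟨z, fun _ => hz⟩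
    · exact ⟨0, fun h => absurd h hn⟩
  choose z hz using hz
  set T : ℝ := 35 / 48 * N with hT
  have hTC : C ≤ T := by
    rw [hT]
    linarith
  have hvol := hC T hTC
  set B : Set ℝ := {x : ℝ | 4 / 3 * T ^ 2 ≤ x ∧ x ≤ 2 * T ^ 2 ∧ Exc (δ / 16) (δ / 8) x} with hB
  have hsub : (⋃ n ∈ S, Icc (z n) (z n + δ / 8 * n)) ⊆ B := by
    intro x hx
    rw [Set.mem_iUnion₂] at hx
    obtain ⟨n, hn, hx⟩ := hx
    obtain ⟨h1, h2, h3⟩ := hz n hn
    have h4 := hlo n hn
    have h5 : (n : ℝ) ≤ N := by exact_mod_cast (hmem n hn).1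
    refine ⟨?_, ?_, h3 x hx⟩
    · have h6 := hx.1
      have h7 : δ / 8 * (n : ℝ) ≤ 1 / 8 * N := by
        have hn0 : 0 ≤ (n : ℝ) := Nat.cast_nonneg n
        nlinarith
      rw [hT]
      nlinarith
    · have h6 := hx.2
      rw [hT]
      nlinarith
  have hdisj : (S : Set ℕ).PairwiseDisjoint fun n => Icc (z n) (z n + δ / 8 * n) := by
    have key : ∀ n ∈ S, ∀ k ∈ S, n < k → Disjoint (Icc (z n) (z n + δ / 8 * n))
        (Icc (z k) (z k + δ / 8 * k)) := by
      intro n hn k hk hnk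
      have h2 : n + 2 ≤ k := by
        have e1 := (hmem n hn).2.2.1
        have e2 := (hmem k hk).2.2.1
        omega
      have h2R : (n : ℝ) + 2 ≤ k := by exact_mod_cast h2
      rw [Set.disjoint_left]
      intro x hx hx'
      have h3 := hx.2.trans (hz n hn).2.1
      have h4 := (hz k hk).1.trans hx'.1
      have h5 : δ / 8 * (k : ℝ) ≤ 1 / 8 * k := by
        have hk0 : 0 ≤ (k : ℝ) := Nat.cast_nonneg k
        nlinarith
      have hn0 : 0 ≤ (n : ℝ) := Nat.cast_nonneg n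
      nlinarith
    intro n hn k hk hne
    rcases lt_or_gt_of_ne hne with h | h
    · exact key n hn k hk h
    · exact (key k hk n hn h).symm
  have hmeas : volume (⋃ n ∈ S, Icc (z n) (z n + δ / 8 * n)) =
      ∑ n ∈ S, ENNReal.ofReal (δ / 8 * n) := by
    rw [measure_biUnion_finset hdisj fun n _ => measurableSet_Icc]
    refine Finset.sum_congr rfl fun n _ => ?_
    rw [Real.volume_Icc]
    congr 1
    ring
  have hsum : (S.card : ℝ) * (δ / 8 * (7 / 8 * N)) ≤ C * T ^ (1 + r1) := by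
    have h1 : ENNReal.ofReal ((S.card : ℝ) * (δ / 8 * (7 / 8 * N))) ≤
        ENNReal.ofReal (C * T ^ (1 + r1)) := by
      calc ENNReal.ofReal ((S.card : ℝ) * (δ / 8 * (7 / 8 * N)))
          = ∑ n ∈ S, ENNReal.ofReal (δ / 8 * (7 / 8 * N)) := by
            rw [Finset.sum_const, nsmul_eq_mul, ENNReal.ofReal_mul (Nat.cast_nonneg _),
              ENNReal.ofReal_natCast]
        _ ≤ ∑ n ∈ S, ENNReal.ofReal (δ / 8 * n) := by
            refine Finset.sum_le_sum fun n hn => ENNReal.ofReal_le_ofReal ?_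
            have := hlo n hn
            gcongr
        _ = volume (⋃ n ∈ S, Icc (z n) (z n + δ / 8 * n)) := hmeas.symm
        _ ≤ volume B := measure_mono hsub
        _ ≤ ENNReal.ofReal (C * T ^ (1 + r1)) := hvol
    have hT0 : 0 ≤ T := by rw [hT]; positivity
    exact (ENNReal.ofReal_le_ofReal_iff (by positivity)).1 h1
  have hTN : T ^ (1 + r1) ≤ (N : ℝ) * (N : ℝ) ^ r1 := by
    have h1 : T ^ (1 + r1) ≤ (N : ℝ) ^ (1 + r1) := by
      refine Real.rpow_le_rpow (by rw [hT]; positivity) (by rw [hT]; linarith) ?_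
      unfold r1
      norm_num
    rwa [Real.rpow_add hN0, Real.rpow_one] at h1
  have h1 : (S.card : ℝ) * (δ / 8 * (7 / 8 * N)) ≤ C * (N * (N : ℝ) ^ r1) :=
    hsum.trans (mul_le_mul_of_nonneg_left hTN hC0.le)
  have h2 : (S.card : ℝ) * (δ * 7 / 64) ≤ C * (N : ℝ) ^ r1 := by
    have h3 : (S.card : ℝ) * (δ * 7 / 64) * N ≤ C * (N : ℝ) ^ r1 * N := by linarith
    exact le_of_mul_le_mul_right h3 hN0
  have h3 : C * (64 / (7 * δ)) * (N : ℝ) ^ r1 = C * (N : ℝ) ^ r1 * (64 / (7 * δ)) := by ring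
  rw [h3]
  calc (S.card : ℝ) = (S.card : ℝ) * (δ * 7 / 64) * (64 / (7 * δ)) := by field_simp
    _ ≤ C * (N : ℝ) ^ r1 * (64 / (7 * δ)) := by gcongr

open Classical in
theorem top_count (δ : ℝ) (hδ : 0 < δ) (hδ1 : δ ≤ 1) : ∃ C : ℝ, 0 < C ∧ ∃ N0 : ℕ, 1 ≤ N0 ∧
    ∀ N : ℕ, N0 ≤ N →
    ((((Finset.Icc 1 N).filter (fun n : ℕ => 7 * N ≤ 8 * n ∧ Dev δ n)).card : ℕ) : ℝ) ≤
      C * (N : ℝ) ^ r1 := by
  obtain ⟨C, hC, N0, hN0, h⟩ := parity_count δ hδ hδ1
  refine ⟨2 * C, by positivity, N0, hN0, fun N hN => ?_⟩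
  have h0 := h N hN 0
  have h1 := h N hN 1
  have hsub : (Finset.Icc 1 N).filter (fun n : ℕ => 7 * N ≤ 8 * n ∧ Dev δ n) ⊆
      (Finset.Icc 1 N).filter (fun n : ℕ => 7 * N ≤ 8 * n ∧ n % 2 = 0 ∧ Dev δ n) ∪
      (Finset.Icc 1 N).filter (fun n : ℕ => 7 * N ≤ 8 * n ∧ n % 2 = 1 ∧ Dev δ n) := by
    intro n hn
    rw [Finset.mem_union, Finset.mem_filter, Finset.mem_filter]
    rw [Finset.mem_filter] at hn
    rcases Nat.mod_two_eq_zero_or_one n with h2 | h2
    · exact Or.inl ⟨hn.1, hn.2.1, h2, hn.2.2⟩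
    · exact Or.inr ⟨hn.1, hn.2.1, h2, hn.2.2⟩
  have h2 := (Finset.card_le_card hsub).trans (Finset.card_union_le _ _)
  have h3 : ((((Finset.Icc 1 N).filter (fun n : ℕ => 7 * N ≤ 8 * n ∧ Dev δ n)).card : ℕ) : ℝ) ≤
      ((((Finset.Icc 1 N).filter (fun n : ℕ => 7 * N ≤ 8 * n ∧ n % 2 = 0 ∧ Dev δ n)).card : ℕ) : ℝ) +
      ((((Finset.Icc 1 N).filter (fun n : ℕ => 7 * N ≤ 8 * n ∧ n % 2 = 1 ∧ Dev δ n)).card : ℕ) : ℝ) := by
    exact_mod_cast h2
  linarith

open Classical in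
/-- all scales -/
theorem all_count (δ : ℝ) (hδ : 0 < δ) (hδ1 : δ ≤ 1) : ∃ K : ℝ, ∀ N : ℕ, 1 ≤ N →
    ((((Finset.Icc 1 N).filter (Dev δ)).card : ℕ) : ℝ) ≤ K * (N : ℝ) ^ r1 := by
  obtain ⟨C, hC, N0, hN0, h⟩ := top_count δ hδ hδ1
  have hr : 0 < r1 := by unfold r1; norm_num
  have hq : (7 / 8 : ℝ) ^ r1 < 1 := Real.rpow_lt_one (by norm_num) (by norm_num) hr
  set q : ℝ := (7 / 8 : ℝ) ^ r1 with hqdef
  refine ⟨C / (1 - q) + (N0 + 2), ?_⟩
  have hK0 : 0 ≤ C / (1 - q) := div_nonneg hC.le (by linarith)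
  have hKC : C ≤ (C / (1 - q) + (N0 + 2)) * (1 - q) := by
    have h1 : C / (1 - q) * (1 - q) = C := div_mul_cancel₀ C (by linarith)
    have h2 : 0 ≤ ((N0 : ℝ) + 2) * (1 - q) := by
      have : 0 ≤ 1 - q := by linarith
      positivity
    nlinarith
  intro N
  induction N using Nat.strong_induction_on with
  | _ N ih =>
    intro hN1
    have hNR : (1 : ℝ) ≤ N := by exact_mod_cast hN1
    have hpow1 : 1 ≤ (N : ℝ) ^ r1 := Real.one_le_rpow hNR hr.le
    by_cases hN : N < N0 + 2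
    · have h1 : (((Finset.Icc 1 N).filter (Dev δ)).card : ℝ) ≤ N := by
        have h2 := Finset.card_filter_le (Finset.Icc 1 N) (Dev δ)
        rw [Nat.card_Icc] at h2
        have h3 : ((Finset.Icc 1 N).filter (Dev δ)).card ≤ N := by omega
        exact_mod_cast h3
      have h2 : (N : ℝ) ≤ N0 + 2 := by exact_mod_cast hN.le
      calc (((Finset.Icc 1 N).filter (Dev δ)).card : ℝ) ≤ N := h1
        _ ≤ (C / (1 - q) + (N0 + 2)) * 1 := by linarith
        _ ≤ (C / (1 - q) + (N0 + 2)) * (N : ℝ) ^ r1 := by gcongr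
    · have hNb : N0 + 2 ≤ N := by omega
      set M : ℕ := 7 * N / 8 with hM
      have hM1 : 1 ≤ M := by omega
      have hMN : M < N := by omega
      have h1 := ih M hMN hM1
      have h2 := h N (by omega)
      have hsub : (Finset.Icc 1 N).filter (Dev δ) ⊆ (Finset.Icc 1 M).filter (Dev δ) ∪
          (Finset.Icc 1 N).filter (fun n : ℕ => 7 * N ≤ 8 * n ∧ Dev δ n) := by
        intro n hn
        rw [Finset.mem_filter, Finset.mem_Icc] at hn
        rw [Finset.mem_union, Finset.mem_filter, Finset.mem_filter, Finset.mem_Icc, Finset.mem_Icc]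
        by_cases hnM : n ≤ M
        · exact Or.inl ⟨⟨hn.1.1, hnM⟩, hn.2⟩
        · exact Or.inr ⟨hn.1, by omega, hn.2⟩
      have h3 := (Finset.card_le_card hsub).trans (Finset.card_union_le _ _)
      have h4 : (((Finset.Icc 1 N).filter (Dev δ)).card : ℝ) ≤
          (((Finset.Icc 1 M).filter (Dev δ)).card : ℝ) +
          (((Finset.Icc 1 N).filter (fun n : ℕ => 7 * N ≤ 8 * n ∧ Dev δ n)).card : ℝ) := by
        exact_mod_cast h3
      have hMR : (M : ℝ) ≤ 7 / 8 * N := by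
        have h5 : 8 * M ≤ 7 * N := by omega
        have h6 : ((8 * M : ℕ) : ℝ) ≤ ((7 * N : ℕ) : ℝ) := by exact_mod_cast h5
        push_cast at h6
        linarith
      have hMp : (M : ℝ) ^ r1 ≤ q * (N : ℝ) ^ r1 := by
        rw [hqdef, ← Real.mul_rpow (by norm_num) (by linarith)]
        exact Real.rpow_le_rpow (Nat.cast_nonneg M) hMR hr.le
      have hK : 0 ≤ C / (1 - q) + ((N0 : ℝ) + 2) := by positivity
      calc (((Finset.Icc 1 N).filter (Dev δ)).card : ℝ)
          ≤ (C / (1 - q) + (N0 + 2)) * (M : ℝ) ^ r1 + C * (N : ℝ) ^ r1 := by linarith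
        _ ≤ (C / (1 - q) + (N0 + 2)) * (q * (N : ℝ) ^ r1) +
            (C / (1 - q) + (N0 + 2)) * (1 - q) * (N : ℝ) ^ r1 := by gcongr
        _ = (C / (1 - q) + (N0 + 2)) * (N : ℝ) ^ r1 := by ring

open Classical in
/-- the theorem -/
theorem uniform : ∃ E : Set ℕ,
    (∀ N : ℕ, ((E ∩ Set.Icc 1 N).ncard : ℝ) ≤ (N : ℝ) ^ (39 / 200 : ℝ)) ∧
    ∀ ε : ℝ, 0 < ε → ∃ n₀ : ℕ, ∀ n : ℕ, n₀ ≤ n → n ∉ E →
      ∀ a b : ℕ, n ^ 2 - n ≤ a → a ≤ b → b ≤ n ^ 2 + n →
        |(((Finset.Icc a b).filter Nat.Prime).card : ℝ) - ((b : ℝ) - a) / (2 * Real.log n)| ≤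
          ε * ((n : ℝ) / Real.log n) := by
  obtain ⟨E, h1, h2⟩ := OX.FIN.diag Dev r1 (39 / 200) (by unfold r1; norm_num)
    (fun δ δ' h n hn => Dev_mono δ δ' h n hn) (by
      intro δ hδ
      obtain ⟨K, hK⟩ := all_count (min δ 1) (lt_min hδ one_pos) (min_le_right _ _)
      refine ⟨K, fun N hN => le_trans ?_ (hK N hN)⟩
      have hsub : (Finset.Icc 1 N).filter (Dev δ) ⊆ (Finset.Icc 1 N).filter (Dev (min δ 1)) := by
        intro n hn
        rw [Finset.mem_filter] at hn ⊢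
        exact ⟨hn.1, Dev_mono _ _ (min_le_left _ _) n hn.2⟩
      exact_mod_cast Finset.card_le_card hsub)
  refine ⟨E, ?_, ?_⟩
  · intro N
    have h3 : E ∩ Set.Icc 1 N = ((Finset.Icc 1 N).filter (fun n => n ∈ E) : Finset ℕ) := by
      ext n
      simp only [Set.mem_inter_iff, Set.mem_Icc, Finset.coe_filter, Finset.mem_Icc, Set.mem_ofPred_eq]
      tauto
    rw [h3, Set.ncard_coe_finset]
    exact h1 N
  · intro ε hε
    obtain ⟨n₀, hn₀⟩ := h2 ε hε
    refine ⟨n₀, fun n hn hnE a b ha hab hb => ?_⟩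
    by_contra hcon
    exact hn₀ n hn hnE ⟨a, b, ha, hab, hb, not_le.1 hcon⟩

end Pool.Agent.Work.MP_a8fbd7_nt.OU
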